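import Mathlib
import Pool.Agent.U958.MU.Stm

set_option autoImplicit false

/-! # Project MU, package M1 (helper653): the totally positive integers `m` with `Tr (m / δ) < 2` -/

namespace Pool.Agent.U653.MU

lemma bd {A C p : ℝ} (hp1 : 809 / 500 < p) (hA : 0 < A) (h1 : 0 < A + C * p)
    (h2 : 0 < A + C * (1 - p)) : -A < C * (809 / 500) ∧ C * (309 / 500) < A := by
  constructor
  · by_contra hcon
    nlinarith
  · by_contra hcon
    nlinarith

lemma fin (b c d : ℤ) (s : ℝ) (hs3 : 14142 / 10000 < s) (hs4 : s < 14143 / 10000)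
    (hb1 : -1 < b) (hb2 : b < 3)
    (c1 : -((b : ℝ) + 1 + b * s) < (c + d * s) * (809 / 500))
    (c2 : (c + d * s) * (309 / 500) < ((b : ℝ) + 1 + b * s))
    (c3 : -((b : ℝ) + 1 - b * s) < (c - d * s) * (809 / 500))
    (c4 : (c - d * s) * (309 / 500) < ((b : ℝ) + 1 - b * s)) :
    (b + 1 = 1 ∧ b = 0 ∧ c = 0 ∧ d = 0) ∨ (b + 1 = 1 ∧ b = 0 ∧ c = 1 ∧ d = 0) ∨
    (b + 1 = 3 ∧ b = 2 ∧ c = 0 ∧ d = 0) ∨ (b + 1 = 3 ∧ b = 2 ∧ c = 3 ∧ d = 2) ∨
    (b + 1 = 2 ∧ b = 1 ∧ c = 0 ∧ d = 0) ∨ (b + 1 = 2 ∧ b = 1 ∧ c = 2 ∧ d = 1) := by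
  have hcl : -2 < (c : ℝ) := by
    interval_cases b <;> push_cast at c1 c2 c3 c4 ⊢ <;> linarith
  have hcu : (c : ℝ) < 5 := by
    interval_cases b <;> push_cast at c1 c2 c3 c4 ⊢ <;> linarith
  have hdl : -2 < (d : ℝ) := by
    by_contra hcon
    have h5 : (d : ℝ) ≤ -2 := not_lt.1 hcon
    interval_cases b <;> push_cast at c1 c2 c3 c4 ⊢ <;> nlinarith
  have hdu : (d : ℝ) < 4 := by
    by_contra hcon
    have h5 : 4 ≤ (d : ℝ) := not_lt.1 hcon
    interval_cases b <;> push_cast at c1 c2 c3 c4 ⊢ <;> nlinarith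
  have hcl' : -2 < c := by exact_mod_cast hcl
  have hcu' : c < 5 := by exact_mod_cast hcu
  have hdl' : -2 < d := by exact_mod_cast hdl
  have hdu' : d < 4 := by exact_mod_cast hdu
  clear hcl hcu hdl hdu
  interval_cases b <;> interval_cases c <;> interval_cases d <;> first
    | omega
    | (exfalso; push_cast at c1 c2 c3 c4; linarith)

theorem t_M1 : Pool.Agent.U958.MU.S_M1 := by
  intro a b c d h hab
  set s : ℝ := Real.sqrt 2 with hs
  have hs2 : s * s = 2 := Real.mul_self_sqrt (by norm_num)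
  have hs0 : 0 ≤ s := Real.sqrt_nonneg 2
  have hs3 : 14142 / 10000 < s := by nlinarith
  have hs4 : s < 14143 / 10000 := by nlinarith
  set q : ℝ := Real.sqrt 5 with hq
  have hq2 : q * q = 5 := Real.mul_self_sqrt (by norm_num)
  have hq0 : 0 ≤ q := Real.sqrt_nonneg 5
  have hq3 : 22360 / 10000 < q := by nlinarith
  set p : ℝ := (1 + q) / 2 with hp
  have hpp : p * p = p + 1 := by rw [hp]; nlinarith
  have hp1 : 809 / 500 < p := by rw [hp]; linarith
  have hpp' : (1 - p) * (1 - p) = (1 - p) + 1 := by nlinarith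
  have hss' : (-s) * (-s) = 2 := by nlinarith
  have h1 := h s p hs2 hpp
  have h2 := h s (1 - p) hs2 hpp'
  have h3 := h (-s) p hss' hpp
  have h4 := h (-s) (1 - p) hss' hpp'
  clear h
  clear_value p q s
  have e1 : 0 < ((a : ℝ) + b * s) + (c + d * s) * p := by linarith
  have e2 : 0 < ((a : ℝ) + b * s) + (c + d * s) * (1 - p) := by linarith
  have e3 : 0 < ((a : ℝ) - b * s) + (c - d * s) * p := by linarith
  have e4 : 0 < ((a : ℝ) - b * s) + (c - d * s) * (1 - p) := by linarith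
  have hA : 0 < (a : ℝ) + b * s := by
    have h5 : 0 < (2 * p - 1) * ((a : ℝ) + b * s) := by
      have h6 := mul_pos (show 0 < p - 1 by linarith) e1
      have h7 := mul_pos (show 0 < p by linarith) e2
      linarith
    exact (mul_pos_iff_of_pos_left (by linarith)).1 h5
  have hA' : 0 < (a : ℝ) - b * s := by
    have h5 : 0 < (2 * p - 1) * ((a : ℝ) - b * s) := by
      have h6 := mul_pos (show 0 < p - 1 by linarith) e3
      have h7 := mul_pos (show 0 < p by linarith) e4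
      linarith
    exact (mul_pos_iff_of_pos_left (by linarith)).1 h5
  have hab1 : 0 < (a : ℝ) - b := by
    have h5 : 0 < (2 * s) * ((a : ℝ) - b) := by
      have h6 := mul_pos (show 0 < s - 1 by linarith) hA
      have h7 := mul_pos (show 0 < s + 1 by linarith) hA'
      linarith
    exact (mul_pos_iff_of_pos_left (by linarith)).1 h5
  have hab2 : 0 < a - b := by exact_mod_cast hab1
  have ha : a = b + 1 := by omega
  subst ha
  obtain ⟨c1, c2⟩ := bd hp1 hA e1 e2
  obtain ⟨c3, c4⟩ := bd hp1 hA' e3 e4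
  have hb1 : -1 < b := by
    by_contra hcon
    have h5 : (b : ℝ) ≤ -1 := by exact_mod_cast not_lt.1 hcon
    push_cast at hA
    nlinarith
  have hb2 : b < 3 := by
    by_contra hcon
    have h5 : (3 : ℝ) ≤ b := by exact_mod_cast not_lt.1 hcon
    push_cast at hA'
    nlinarith
  push_cast at c1 c2 c3 c4
  exact fin b c d s hs3 hs4 hb1 hb2 c1 c2 c3 c4

end Pool.Agent.U653.MU
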